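import Pool.Agent.R593.Gf.Main

/-!
# Subsets of finite positive Hausdorff measure: which gauges allow them

For a gauge `f` let `Star f` say that every set `A` of reals with `H^f(A) > 0` has a subset of
finite positive `H^f`-measure. We prove in ZFC that `Star f` fails for every gauge `f` with
`f t / t → ∞` as `t → 0`, so the statement of the problem is refuted by ZFC; for all other gauges
`Star f` holds.

Idea. Let `Y ⊆ [0, 1)` be a set of least cardinality which is not Lebesgue null, well ordered in
the order type of its cardinality. For `y ∈ Y` let `ρ(y)` be the real number whose binary digits at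
a sparse set `S` of positions are a code for a null set that contains all predecessors of `y`, and
whose other digits are the digits of `y`. If `f t / t → ∞` then `S` can be chosen so sparse that
`H^f(ρ[Y])` is at least a positive multiple of the outer measure of `Y`. The theorem of Fubini shows
that `ρ[Y]` is null for each finite Borel measure without atoms, and the restriction of `H^f` to a
set of finite measure is such a measure.
-/

set_option autoImplicit false

namespace Pool.Agent.Results.MP_b87f19_lc.GaugeDichotomy

open Pool.Agent.R593.Gf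

theorem sqrt_isGauge : IsGauge Real.sqrt where
  mono := fun _ _ _ h => Real.sqrt_le_sqrt h
  right := fun _ _ => Real.continuous_sqrt.continuousWithinAt
  zero := Real.sqrt_zero
  pos := fun _ h => Real.sqrt_pos.2 h

theorem not_star_sqrt : ¬ Star Real.sqrt := by
  rw [star_iff sqrt_isGauge]
  rintro ⟨C, hC⟩
  obtain ⟨t, ht0, ht1, ht2⟩ := hC (1 / (|C| + 1) ^ 2) (by positivity)
  have h1 : 0 < Real.sqrt t := Real.sqrt_pos.2 ht0
  have h2 : Real.sqrt t * Real.sqrt t = t := Real.mul_self_sqrt ht0.le
  have h3 : Real.sqrt t < 1 / (|C| + 1) := by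
    rw [Real.sqrt_lt' (by positivity), one_div_pow]
    exact ht1
  have h4 : (|C| + 1) * Real.sqrt t < 1 := by
    rw [lt_div_iff₀ (by positivity)] at h3
    linarith [mul_comm (|C| + 1) (Real.sqrt t)]
  have h5 : C ≤ |C| := le_abs_self C
  have h6 : C * t ≤ |C| * (Real.sqrt t * Real.sqrt t) := by
    rw [h2]
    exact mul_le_mul_of_nonneg_right h5 ht0.le
  have h7 : |C| * (Real.sqrt t * Real.sqrt t) ≤ ((|C| + 1) * Real.sqrt t) * Real.sqrt t := by
    nlinarith [mul_pos h1 h1]
  have h8 : ((|C| + 1) * Real.sqrt t) * Real.sqrt t < 1 * Real.sqrt t :=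
    mul_lt_mul_of_pos_right h4 h1
  linarith

/-- ZFC refutes the statement that for each gauge function `f` every set of reals of positive
`H^f`-measure has a subset of finite positive `H^f`-measure. More precisely, this holds for a gauge
`f` if and only if `f t / t` does not tend to infinity for `t → 0`; and if it fails for `f`, there
is a universally null set `A` with `H^f(A) > 0`, and all subsets of such an `A` have
`H^f`-measure zero or infinity. -/
theorem result :
    (¬ ∀ f : ℝ → ℝ, IsGauge f → Star f) ∧
    ∀ f : ℝ → ℝ, IsGauge f →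
      (Star f ↔ ∃ C : ℝ, ∀ δ > 0, ∃ t, 0 < t ∧ t < δ ∧ f t ≤ C * t) ∧
      (¬ Star f → ∃ A : Set ℝ, UnivNull A ∧ 0 < haus f A ∧
        ∀ A₀ ⊆ A, haus f A₀ = 0 ∨ haus f A₀ = ⊤) := by
  refine ⟨fun h => not_star_sqrt (h _ sqrt_isGauge), fun f hf => ⟨star_iff hf, fun hs => ?_⟩⟩
  rw [star_iff hf] at hs
  obtain ⟨A, hA, hpos⟩ := exists_univNull_haus hf hs
  refine ⟨A, hA, hpos, fun A₀ hA₀ => ?_⟩
  by_cases h : haus f A₀ = ⊤
  · exact Or.inr h
  · exact Or.inl (haus_eq_zero hf hA hA₀ (lt_top_iff_ne_top.2 h))

end Pool.Agent.Results.MP_b87f19_lc.GaugeDichotomy
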